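import Mathlib

set_option autoImplicit false

namespace Pool.Agent.Results.MP_16ddc9_co.MaxDegree

universe u

/-- The set of colours occurring among the neighbours of `v`. -/
def nbrColours {V : Type u} (G : SimpleGraph V) {k : ℕ} (c : V → Fin k) (v : V) :
    Set (Fin k) :=
  {i | ∃ w, G.Adj v w ∧ c w = i}

/-- `c` is a neighbor-locating `k`-colouring of `G`: all `k` colour classes are nonempty and
independent, and distinct vertices of the same colour see different sets of colours among their
neighbours. -/
structure IsNLColouring {V : Type u} (G : SimpleGraph V) (k : ℕ) (c : V → Fin k) : Prop where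
  surj : Function.Surjective c
  proper : ∀ u v : V, G.Adj u v → c u ≠ c v
  locating : ∀ u v : V, u ≠ v → c u = c v → nbrColours G c u ≠ nbrColours G c v

/-- The neighbor-locating chromatic number: the least `k` for which `G` has a neighbor-locating
`k`-colouring. -/
noncomputable def nlcNumber {V : Type u} (G : SimpleGraph V) : ℕ :=
  sInf {k : ℕ | ∃ c : V → Fin k, IsNLColouring G k c}

/-- Sanity check: every finite graph has a neighbor-locating colouring (all colours distinct), so
`nlcNumber G` is attained. -/
theorem nlcNumber_spec {V : Type u} [Fintype V] (G : SimpleGraph V) :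
    ∃ c : V → Fin (nlcNumber G), IsNLColouring G (nlcNumber G) c := by
  have hne : {k : ℕ | ∃ c : V → Fin k, IsNLColouring G k c}.Nonempty := by
    refine ⟨Fintype.card V, Fintype.equivFin V, (Fintype.equivFin V).surjective, ?_, ?_⟩
    · intro u v h h'
      exact h.ne ((Fintype.equivFin V).injective h')
    · intro u v h h'
      exact absurd ((Fintype.equivFin V).injective h') h
  exact Nat.sInf_mem hne

/-- The purely arithmetical local inequality behind the proof. -/
theorem local_ineq (n a b l z m e : Prop) [Decidable n] [Decidable a] [Decidable b]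
    [Decidable l] [Decidable z] (s d : ℕ)
    (fA : m → s ≤ 2 → a) (fB : ¬ e → s = 1 → b) (fZ : z → m) (fN : n → m)
    (fZN : z → n → s + 1 ≤ d) (fZne : z → ¬ l) (fBne : m → ¬ e) (fL : d = 1 → e → l)
    (e1 : s ≤ d) (e2 : 1 ≤ s) :
    (if n then (1 : ℤ) else 0) - ((d : ℤ) - 2)
      ≤ (if a then (1 : ℤ) else 0) + (if b then (1 : ℤ) else 0)
        + ((if l then (1 : ℤ) else 0) - (if z then (1 : ℤ) else 0)) := by
  by_cases hn : n <;> by_cases ha : a <;> by_cases hb : b <;> by_cases hl : l <;>
    by_cases hz : z <;> by_cases hm : m <;> by_cases he : e <;>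
    simp only [hn, ha, hb, hl, hz, hm, he, if_true, if_false, true_imp_iff, false_imp_iff,
      not_true_eq_false, not_false_eq_true, imp_false, imp_true_iff] at * <;>
    omega

/-- The core bound, for every neighbor-locating colouring of a tree and every vertex. -/
theorem degree_le {V : Type u} [Fintype V] [DecidableEq V] (T : SimpleGraph V)
    [DecidableRel T.Adj] (hT : T.IsTree) {k : ℕ} (hk : 2 ≤ k) (c : V → Fin k)
    (hc : IsNLColouring T k c) (v : V) : T.degree v ≤ (k - 1) ^ 2 := by
  classical
  have hk1 : 1 ≤ (k - 1) ^ 2 := Nat.one_le_pow _ _ (by omega)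
  by_cases hD1 : T.degree v ≤ 1
  · exact hD1.trans hk1
  have hD : 2 ≤ T.degree v := by omega
  -- colour sets as finsets
  set S : V → Finset (Fin k) := fun w => (T.neighborFinset w).image c with hSdef
  have hSmem : ∀ w i, i ∈ S w ↔ ∃ x, T.Adj w x ∧ c x = i := by
    intro w i
    simp [hSdef, Finset.mem_image, SimpleGraph.mem_neighborFinset]
  have hSinj : ∀ w w', c w = c w' → S w = S w' → w = w' := by
    intro w w' h1 h2
    by_contra hne
    apply hc.locating w w' hne h1
    ext i
    simp only [nbrColours, Set.mem_ofPred_eq]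
    rw [← hSmem, ← hSmem, h2]
  have hSprop : ∀ w i, i ∈ S w → i ≠ c w := by
    intro w i hi
    obtain ⟨x, hx, rfl⟩ := (hSmem w i).1 hi
    exact (hc.proper w x hx).symm
  have hcardS : ∀ w, (S w).card ≤ T.degree w := by
    intro w
    exact Finset.card_image_le
  have hnontriv : Nontrivial V := by
    have : 0 < T.degree v := by omega
    obtain ⟨x, hx⟩ := (T.degree_pos_iff_exists_adj v).1 this
    exact ⟨⟨v, x, hx.ne⟩⟩
  have hpos : ∀ w, 1 ≤ T.degree w := fun w =>
    hT.connected.preconnected.degree_pos_of_nontrivial w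
  have hSne : ∀ w, 1 ≤ (S w).card := by
    intro w
    rw [Nat.one_le_iff_ne_zero, ← Nat.pos_iff_ne_zero, Finset.card_pos]
    obtain ⟨x, hx⟩ := (T.degree_pos_iff_exists_adj w).1 (hpos w)
    exact ⟨c x, (hSmem w _).2 ⟨x, hx, rfl⟩⟩
  -- predicates
  set pA : V → Prop := fun w => ∃ j, j ≠ c w ∧ c v ≠ c w ∧ S w = {c v, j} with hpA
  set pB : V → Prop := fun w => ∃ j, j ≠ c w ∧ c v ≠ c w ∧ S w = {j} with hpB
  set pZ : V → Prop := fun w => ∃ l, T.Adj w l ∧ T.degree l = 1 ∧ c l = c v with hpZ
  set pL : V → Prop := fun w => T.degree w = 1 ∧ c w = c v with hpL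
  -- the index set of types
  set P : Finset (Σ _ : Fin k, Fin k) :=
    Finset.sigma (Finset.univ.erase (c v)) (fun i => Finset.univ.erase i) with hP
  have hPcard : P.card = (k - 1) ^ 2 := by
    rw [hP, Finset.card_sigma]
    have : ∀ i ∈ (Finset.univ.erase (c v) : Finset (Fin k)),
        (Finset.univ.erase i : Finset (Fin k)).card = k - 1 := by
      intro i _
      rw [Finset.card_erase_of_mem (Finset.mem_univ _), Finset.card_univ, Fintype.card_fin]
    rw [Finset.sum_congr rfl this, Finset.sum_const,
      Finset.card_erase_of_mem (Finset.mem_univ _), Finset.card_univ, Fintype.card_fin,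
      smul_eq_mul, sq]
  have hA : (Finset.univ.filter pA).card ≤ (k - 1) ^ 2 := by
    rw [← hPcard]
    have : ∀ w : V, ∃ j : Fin k, pA w → (j ≠ c w ∧ c v ≠ c w ∧ S w = {c v, j}) := by
      intro w
      by_cases h : pA w
      · obtain ⟨j, hj⟩ := h
        exact ⟨j, fun _ => hj⟩
      · exact ⟨c w, fun h' => absurd h' h⟩
    choose f hf using this
    apply Finset.card_le_card_of_injOn (fun w => (⟨c w, f w⟩ : Σ _ : Fin k, Fin k))
    · intro w hw
      have hw' : pA w := by simpa using hw
      obtain ⟨h1, h2, h3⟩ := hf w hw'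
      simp [hP, h1, h2.symm]
    · intro w hw w' hw' heq
      have hw1 : pA w := by simpa using hw
      have hw2 : pA w' := by simpa using hw'
      obtain ⟨h1, h2, h3⟩ := hf w hw1
      obtain ⟨h1', h2', h3'⟩ := hf w' hw2
      simp only [Sigma.mk.injEq, heq_eq_eq] at heq
      exact hSinj w w' heq.1 (by rw [h3, h3', heq.2])
  have hB : (Finset.univ.filter pB).card ≤ (k - 1) ^ 2 := by
    rw [← hPcard]
    have : ∀ w : V, ∃ j : Fin k, pB w → (j ≠ c w ∧ c v ≠ c w ∧ S w = {j}) := by
      intro w
      by_cases h : pB w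
      · obtain ⟨j, hj⟩ := h
        exact ⟨j, fun _ => hj⟩
      · exact ⟨c w, fun h' => absurd h' h⟩
    choose f hf using this
    apply Finset.card_le_card_of_injOn (fun w => (⟨c w, f w⟩ : Σ _ : Fin k, Fin k))
    · intro w hw
      have hw' : pB w := by simpa using hw
      obtain ⟨h1, h2, h3⟩ := hf w hw'
      simp [hP, h1, h2.symm]
    · intro w hw w' hw' heq
      have hw1 : pB w := by simpa using hw
      have hw2 : pB w' := by simpa using hw'
      obtain ⟨h1, h2, h3⟩ := hf w hw1
      obtain ⟨h1', h2', h3'⟩ := hf w' hw2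
      simp only [Sigma.mk.injEq, heq_eq_eq] at heq
      exact hSinj w w' heq.1 (by rw [h3, h3', heq.2])
  -- leaves of the colour of `v` inject into `Z`
  have hLZ : (Finset.univ.filter pL).card ≤ (Finset.univ.filter pZ).card := by
    have : ∀ w : V, ∃ x : V, T.Adj w x := fun w => (T.degree_pos_iff_exists_adj w).1 (hpos w)
    choose f hf using this
    apply Finset.card_le_card_of_injOn f
    · intro w hw
      have hw' : pL w := by simpa using hw
      simp only [Finset.coe_filter, Finset.mem_univ, true_and, Set.mem_ofPred_eq]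
      exact ⟨w, (hf w).symm, hw'.1, hw'.2⟩
    · intro w hw w' hw' heq
      have hw1 : pL w := by simpa using hw
      have hw2 : pL w' := by simpa using hw'
      have key : ∀ w : V, T.degree w = 1 → S w = {c (f w)} := by
        intro w h1
        obtain ⟨y, hy, huniq⟩ := (SimpleGraph.degree_eq_one_iff_existsUnique_adj).1 h1
        ext i
        rw [hSmem, Finset.mem_singleton]
        constructor
        · rintro ⟨x, hx, rfl⟩
          rw [huniq x hx, huniq (f w) (hf w)]
        · rintro rfl
          exact ⟨f w, hf w, rfl⟩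
      exact hSinj w w' (by rw [hw1.2, hw2.2]) (by rw [key w hw1.1, key w' hw2.1, heq])
  -- degree sum of the tree
  have hsum : ∑ w, ((T.degree w : ℤ) - 2) = -2 := by
    have h1 := T.sum_degrees_eq_twice_card_edges
    have h2 := hT.card_edgeFinset
    rw [Finset.sum_sub_distrib, Finset.sum_const, Finset.card_univ]
    have h3 : (∑ w, (T.degree w : ℤ)) = 2 * (T.edgeFinset.card : ℤ) := by
      exact_mod_cast h1
    rw [h3]
    have h4 : (Fintype.card V : ℤ) = T.edgeFinset.card + 1 := by exact_mod_cast h2.symm
    simp only [nsmul_eq_mul]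
    rw [h4]
    ring
  have hsum2 : ∑ w, ((T.degree w : ℤ) - 2 - (if w = v then (T.degree v : ℤ) - 2 else 0))
      = -(T.degree v : ℤ) := by
    rw [Finset.sum_sub_distrib, hsum, Finset.sum_ite_eq' Finset.univ v]
    simp only [Finset.mem_univ, if_true]
    ring
  have hN : ∑ w, (if T.Adj v w then (1 : ℤ) else 0) = T.degree v := by
    rw [← Finset.natCast_card_filter, ← SimpleGraph.card_neighborFinset_eq_degree]
    congr 2
    ext w
    simp
  -- the pointwise inequality
  have hpt : ∀ w, (if T.Adj v w then (1 : ℤ) else 0)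
      - ((T.degree w : ℤ) - 2 - (if w = v then (T.degree v : ℤ) - 2 else 0))
      ≤ (if pA w then (1 : ℤ) else 0) + (if pB w then (1 : ℤ) else 0)
        + ((if pL w then (1 : ℤ) else 0) - (if pZ w then (1 : ℤ) else 0)) := by
    intro w
    by_cases hwv : w = v
    · subst hwv
      have h1 : ¬ pA w := by rintro ⟨j, _, h, _⟩; exact h rfl
      have h2 : ¬ pB w := by rintro ⟨j, _, h, _⟩; exact h rfl
      have h3 : ¬ pL w := by rintro ⟨h, _⟩; omega
      have h4 : ¬ pZ w := by
        rintro ⟨l, hl, _, h⟩
        exact hc.proper w l hl h.symm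
      simp [h1, h2, h3, h4]
    · have fA : c v ∈ S w → (S w).card ≤ 2 → pA w := by
        intro h1 h2
        have hne : c v ≠ c w := hSprop w _ h1
        by_cases h3 : (S w).card = 1
        · obtain ⟨j, hj⟩ := Finset.card_eq_one.1 h3
          rw [hj, Finset.mem_singleton] at h1
          refine ⟨c v, hne, hne, ?_⟩
          rw [hj, ← h1]
          simp
        · have h4 : (S w).card = 2 := by
            have := hSne w
            omega
          have h5 : ((S w).erase (c v)).card = 1 := by
            rw [Finset.card_erase_of_mem h1, h4]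
          obtain ⟨j, hj⟩ := Finset.card_eq_one.1 h5
          have hjm : j ∈ (S w).erase (c v) := by rw [hj]; exact Finset.mem_singleton_self j
          refine ⟨j, hSprop w j (Finset.mem_of_mem_erase hjm), hne, ?_⟩
          rw [← hj, Finset.insert_erase h1]
      have fB : c v ≠ c w → (S w).card = 1 → pB w := by
        intro h1 h2
        obtain ⟨j, hj⟩ := Finset.card_eq_one.1 h2
        refine ⟨j, ?_, h1, hj⟩
        exact hSprop w j (by rw [hj]; exact Finset.mem_singleton_self j)
      have fZ : pZ w → c v ∈ S w := by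
        rintro ⟨l, hl, _, h⟩
        exact (hSmem w _).2 ⟨l, hl, h⟩
      have fN : T.Adj v w → c v ∈ S w := fun h => (hSmem w _).2 ⟨v, h.symm, rfl⟩
      have fZN : pZ w → T.Adj v w → (S w).card + 1 ≤ T.degree w := by
        rintro ⟨l, hl, hl1, hlc⟩ hvw
        have hlv : l ≠ v := by
          rintro rfl
          omega
        have hsub : S w ⊆ ((T.neighborFinset w).erase l).image c := by
          intro i hi
          obtain ⟨x, hx, rfl⟩ := (hSmem w i).1 hi
          by_cases hxl : x = l
          · subst hxl
            rw [Finset.mem_image]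
            exact ⟨v, by simp [hlv.symm, hvw.symm], hlc.symm⟩
          · rw [Finset.mem_image]
            exact ⟨x, by simp [hxl, hx], rfl⟩
        have h1 := (Finset.card_le_card hsub).trans Finset.card_image_le
        rw [Finset.card_erase_of_mem (by simpa using hl),
          SimpleGraph.card_neighborFinset_eq_degree] at h1
        have := hpos w
        omega
      have fZne : pZ w → ¬ pL w := by
        rintro ⟨l, hl, _, hlc⟩ ⟨_, h⟩
        exact hc.proper w l hl (by rw [h, hlc])
      have fBne : c v ∈ S w → c v ≠ c w := fun h => hSprop w _ h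
      have fL : T.degree w = 1 → c v = c w → pL w := fun h1 h2 => ⟨h1, h2.symm⟩
      have e1 := hcardS w
      have e2 := hSne w
      have e3 := hpos w
      simp only [hwv, if_false]
      have := local_ineq (T.Adj v w) (pA w) (pB w) (pL w) (pZ w) (c v ∈ S w) (c v = c w)
        (S w).card (T.degree w) fA fB fZ fN fZN fZne fBne fL e1 e2
      linarith
  have hfin : 2 * (T.degree v : ℤ) ≤ 2 * (((k - 1) ^ 2 : ℕ) : ℤ) := by
    have h := Finset.sum_le_sum (fun w (_ : w ∈ (Finset.univ : Finset V)) => hpt w)
    rw [Finset.sum_sub_distrib, hN, hsum2, Finset.sum_add_distrib, Finset.sum_add_distrib,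
      Finset.sum_sub_distrib, ← Finset.natCast_card_filter, ← Finset.natCast_card_filter,
      ← Finset.natCast_card_filter, ← Finset.natCast_card_filter] at h
    have hA' : ((Finset.univ.filter pA).card : ℤ) ≤ (((k - 1) ^ 2 : ℕ) : ℤ) := by
      exact_mod_cast hA
    have hB' : ((Finset.univ.filter pB).card : ℤ) ≤ (((k - 1) ^ 2 : ℕ) : ℤ) := by
      exact_mod_cast hB
    have hLZ' : ((Finset.univ.filter pL).card : ℤ) ≤ ((Finset.univ.filter pZ).card : ℤ) := by
      exact_mod_cast hLZ
    linarith
  have : (T.degree v : ℤ) ≤ (((k - 1) ^ 2 : ℕ) : ℤ) := by linarith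
  exact_mod_cast this

/-- **Full answer to Q1** (the statement holds): for every `k ≥ 2`, every tree `T` with
neighbor-locating chromatic number `k` has maximum degree at most `(k - 1) ^ 2`. -/
theorem result : ∀ k : ℕ, 2 ≤ k → ∀ (V : Type u) [Fintype V] (T : SimpleGraph V)
    [DecidableRel T.Adj], T.IsTree → nlcNumber T = k → T.maxDegree ≤ (k - 1) ^ 2 := by
  classical
  intro k hk V _ T _ hT hchi
  have hne : {k : ℕ | ∃ c : V → Fin k, IsNLColouring T k c}.Nonempty := by
    apply Nat.nonempty_of_pos_sInf
    show 0 < nlcNumber T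
    omega
  have hmem := Nat.sInf_mem hne
  have hmem' : k ∈ {k : ℕ | ∃ c : V → Fin k, IsNLColouring T k c} := by
    have : sInf {k : ℕ | ∃ c : V → Fin k, IsNLColouring T k c} = k := hchi
    rw [this] at hmem
    exact hmem
  obtain ⟨c, hc⟩ := hmem'
  apply SimpleGraph.maxDegree_le_of_forall_degree_le
  intro v
  exact degree_le T hT hk c hc v

end Pool.Agent.Results.MP_16ddc9_co.MaxDegree
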